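import Pool.Agent.Lib_helper34.NF.Fin

/-!
# MP_9b4ab6_gt: long-time convergence of the curvature flow of planar networks

Every globally existing curvature flow of a regular planar network with fixed end-points converges,
along all times, to a network which is stationary for length.  Proof by helper34, blocks by
helper37 (first variation, area) and helper72 (reparametrisation).

Idea.  (1) Length decreases, so along some times all tangents become constant.
(2) The deviation of the tangent direction from the limit direction is continuous on the whole
network, including the 3-points, and satisfies a Kirchhoff condition there; hence a maximum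
principle holds (proved here by means of a convex energy, in the class `C^2` in space, `C^1` in
time), and the tangents converge uniformly for all times.
(3) For every real circulation `n` on the graph the weighted area is constant in time.
(4) For two limit points `X`, `Y` of the positions of the vertices the normal displacement of the
curves is a circulation `n`, and `A_n(Y) - A_n(X) = - (1/2) * sum n_i^2 (l_i(X) + l_i(Y))`; so
`n` vanishes on all curves that are not collapsed in both; a highest vertex argument gives `X = Y`,
even if curves collapse.
-/

set_option autoImplicit false

namespace Pool.Agent.NF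

open Set Filter Topology MeasureTheory

/-- the network at time `t`, as a set -/
def Flow.S {ι J R : Type} [Fintype ι] [DecidableEq J] [DecidableEq R] (F : Flow ι J R) (t : ℝ) :
    Set ℂ := ⋃ i, F.γ i t '' Icc (0 : ℝ) 1

/-- the length of the curve `i` at time `t` -/
noncomputable def Flow.len {ι J R : Type} [Fintype ι] [DecidableEq J] [DecidableEq R]
    (F : Flow ι J R) (i : ι) (t : ℝ) : ℝ := ∫ x in (0 : ℝ)..1, ‖F.γx i t x‖

/-- As `t → ∞` (along all times) the flow converges to the network whose `i`-th curve is the segment
from `A i` to `B i` (a point if `A i = B i`): in Hausdorff distance; the length of each curve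
converges to the length of its limit segment; and each curve, reparametrised, converges in `C^1` to
its limit segment (in particular the curves whose length tends to `0` collapse to a point). -/
structure Flow.ConvergesTo {ι J R : Type} [Fintype ι] [DecidableEq J] [DecidableEq R]
    (F : Flow ι J R) (A B : ι → ℂ) : Prop where
  hausdorff : Tendsto (fun t => Metric.hausdorffEDist (F.S t) (⋃ i, segment ℝ (A i) (B i)))
    atTop (𝓝 0)
  length : ∀ i, Tendsto (F.len i) atTop (𝓝 ‖B i - A i‖)
  curves : ∀ i, C1Conv (F.γ i) (A i) (B i)

open Classical in
/-- The network with the curves `[A i, B i]` is stationary for length with the points `P r` fixed: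
at every point `p` which is not one of the `P r` the exterior unit tangents at `p` of the
(non degenerate) segments which end at `p` sum to `0`.  Here `tau z = z / |z|`. -/
def Stationary {ι R : Type} [Fintype ι] (P : R → ℂ) (A B : ι → ℂ) : Prop :=
  ∀ p : ℂ, (∀ r, P r ≠ p) →
    ∑ i ∈ Finset.univ.filter (fun i => A i = p ∧ B i ≠ p), tau (B i - A i) +
    ∑ i ∈ Finset.univ.filter (fun i => B i = p ∧ A i ≠ p), tau (A i - B i) = 0

end Pool.Agent.NF

namespace Pool.Agent.Results.MP_9b4ab6_gt.NetworkFlowConverges

open Set Filter Topology MeasureTheory Pool.Agent.NF

/-- Every curvature flow of a network with fixed end-points which exists for all times converges, as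
`t → ∞` along all times, to a network which is stationary for length; `X` gives the limit positions
of the 3-points and of the end-points. -/
theorem result {ι J R : Type} [Fintype ι] [Fintype J] [Fintype R] [DecidableEq J] [DecidableEq R]
    (F : Flow ι J R) :
    ∃ X : J ⊕ R → ℂ, (∀ r, X (Sum.inr r) = F.P r) ∧
      F.ConvergesTo (fun i => X (F.ends (i, false))) (fun i => X (F.ends (i, true))) ∧
      Stationary F.P (fun i => X (F.ends (i, false))) (fun i => X (F.ends (i, true))) := by
  classical
  obtain ⟨X, h1, h2, h3, h4, h5⟩ := main F
  refine ⟨X, h1, ⟨h4, h3, h2⟩, fun p hp => ?_⟩
  have h6 := h5 p hp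
  rw [Finset.sum_filter, sum_ends_split, Finset.sum_add_distrib, add_comm] at h6
  rw [Finset.sum_filter, Finset.sum_filter]
  simp only [Bool.not_true, Bool.not_false] at h6
  convert h6 using 2

end Pool.Agent.Results.MP_9b4ab6_gt.NetworkFlowConverges
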